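import Mathlib
set_option autoImplicit false

namespace Pool.Agent.R465
open Finset

/-- the primes `p` with `M < p < X` -/
def prs (M X : ℕ) : Finset ℕ := (Finset.range X).filter (fun p => p.Prime ∧ M < p)

theorem mem_prs {M X p : ℕ} : p ∈ prs M X ↔ p < X ∧ p.Prime ∧ M < p := by
  unfold prs; rw [Finset.mem_filter, Finset.mem_range]

/-- the sum of `1 / p` over the primes `p > M` is infinite -/
theorem exists_sum_gt (M : ℕ) (C : ℝ) : ∃ X : ℕ, C < ∑ p ∈ prs M X, (1 : ℝ) / p := by
  by_contra hcon
  push Not at hcon
  apply not_summable_one_div_on_primes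
  rw [← summable_nat_add_iff (M + 1)]
  refine summable_of_sum_range_le (c := C) ?_ ?_
  · intro n
    exact Set.indicator_nonneg (fun x _ => by positivity) _
  · intro n
    refine le_trans (le_of_eq ?_) (hcon (M + 1 + n))
    unfold prs
    rw [Finset.sum_filter]
    rw [← Finset.sum_range_add_sum_Ico _ (show M + 1 ≤ M + 1 + n by omega)]
    rw [Finset.sum_eq_zero (s := Finset.range (M + 1)), zero_add]
    · rw [Finset.sum_Ico_eq_sum_range]
      have : M + 1 + n - (M + 1) = n := by omega
      rw [this]
      refine Finset.sum_congr rfl fun i _ => ?_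
      simp only [Set.indicator_apply, Set.mem_ofPred_eq]
      have h : i + (M + 1) = M + 1 + i := by omega
      rw [h]
      by_cases hp : (M + 1 + i).Prime
      · have h1 : M < M + 1 + i := by omega
        simp [hp, h1]
      · simp [hp]
    · intro i hi
      rw [Finset.mem_range] at hi
      rw [if_neg]
      rintro ⟨_, h⟩
      omega

end Pool.Agent.R465
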