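import Mathlib
import Pool.Agent.R465.PrimeSum
set_option autoImplicit false

/-!
# The function `KL`

`KL(n) = ∑_{d ∣ n} d log (d / (2 φ(d)))`.  For squarefree `n = ∏_{p ∈ s} p` one has
`KL(n) = σ(n) (∑_{p ∈ s} w(p) - log 2)` with `w(p) = p / (p + 1) log (p / (p - 1))`.
-/

namespace Pool.Agent.R465.KL
open Finset

/-- `KL(n) = ∑_{d ∣ n} d log (d / (2 φ(d)))` -/
noncomputable def KL (n : ℕ) : ℝ :=
  ∑ d ∈ n.divisors, (d : ℝ) * Real.log ((d : ℝ) / (2 * (Nat.totient d : ℝ)))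

/-- the weight of a prime which divides `n` exactly once -/
noncomputable def w (p : ℕ) : ℝ := (p : ℝ) / (p + 1) * Real.log ((p : ℝ) / (p - 1))

/-- the sum of the divisors -/
def sg (n : ℕ) : ℕ := ∑ d ∈ n.divisors, d

/-- `∑_{d ∣ n} d log (d / φ(d))` -/
noncomputable def F (n : ℕ) : ℝ :=
  ∑ d ∈ n.divisors, (d : ℝ) * Real.log ((d : ℝ) / (Nat.totient d : ℝ))

theorem KL_eq {n : ℕ} : KL n = F n - Real.log 2 * sg n := by
  unfold KL F sg
  push_cast
  rw [Finset.mul_sum, ← Finset.sum_sub_distrib]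
  refine Finset.sum_congr rfl fun d hd => ?_
  have hd0 : 0 < d := Nat.pos_of_mem_divisors hd
  have ht : 0 < Nat.totient d := Nat.totient_pos.2 hd0
  have h1 : (0 : ℝ) < d := by exact_mod_cast hd0
  have h2 : (0 : ℝ) < Nat.totient d := by exact_mod_cast ht
  have h3 : (d : ℝ) / (2 * (Nat.totient d : ℝ)) = (d : ℝ) / (Nat.totient d : ℝ) / 2 := by
    field_simp
  rw [h3, Real.log_div (by positivity) (by norm_num)]
  ring

theorem sg_mul_prime {m p : ℕ} (hp : p.Prime) (hpm : ¬ p ∣ m) : sg (m * p) = sg m * (p + 1) := by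
  unfold sg
  have hc : m.Coprime p := (Nat.Prime.coprime_iff_not_dvd hp).2 hpm |>.symm
  rw [Nat.Coprime.sum_divisors_mul hc]
  congr 1
  rw [Nat.Prime.sum_divisors hp]

theorem F_mul_prime {m p : ℕ} (hp : p.Prime) (hpm : ¬ p ∣ m) (hm : 0 < m) :
    F (m * p) = F m * (p + 1) + p * Real.log ((p : ℝ) / (p - 1)) * sg m := by
  have hdiv : (m * p).divisors = m.divisors ∪ m.divisors.image (fun d => d * p) := by
    ext d
    rw [Nat.mem_divisors, Finset.mem_union, Finset.mem_image, Nat.mem_divisors]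
    constructor
    · rintro ⟨hd, h0⟩
      by_cases hpd : p ∣ d
      · right
        obtain ⟨c, rfl⟩ := hpd
        refine ⟨c, ?_, by ring⟩
        rw [Nat.mem_divisors]
        refine ⟨?_, hm.ne'⟩
        rw [mul_comm m p] at hd
        exact (Nat.mul_dvd_mul_iff_left hp.pos).1 hd
      · left
        exact ⟨(Nat.Coprime.dvd_of_dvd_mul_right
          ((Nat.Prime.coprime_iff_not_dvd hp).2 hpd).symm hd), hm.ne'⟩
    · rintro (⟨h1, h2⟩ | ⟨c, hc, rfl⟩)
      · exact ⟨h1.mul_right p, Nat.mul_ne_zero hm.ne' hp.ne_zero⟩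
      · rw [Nat.mem_divisors] at hc
        exact ⟨Nat.mul_dvd_mul_right hc.1 p, Nat.mul_ne_zero hm.ne' hp.ne_zero⟩
  have hdisj : Disjoint m.divisors (m.divisors.image (fun d => d * p)) := by
    rw [Finset.disjoint_left]
    intro d hd hd'
    rw [Finset.mem_image] at hd'
    obtain ⟨c, _, rfl⟩ := hd'
    rw [Nat.mem_divisors] at hd
    exact hpm ((Dvd.intro_left c rfl).trans hd.1)
  have hF : F (m * p) = F m + ∑ d ∈ m.divisors,
      ((d * p : ℕ) : ℝ) * Real.log (((d * p : ℕ) : ℝ) / (Nat.totient (d * p) : ℝ)) := by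
    unfold F
    rw [hdiv, Finset.sum_union hdisj, Finset.sum_image]
    intro a _ b _ h
    exact Nat.eq_of_mul_eq_mul_right hp.pos h
  rw [hF]
  have h1 : ∀ d ∈ m.divisors,
      ((d * p : ℕ) : ℝ) * Real.log (((d * p : ℕ) : ℝ) / (Nat.totient (d * p) : ℝ)) =
      p * ((d : ℝ) * Real.log ((d : ℝ) / (Nat.totient d : ℝ))) +
        p * Real.log ((p : ℝ) / (p - 1)) * d := by
    intro d hd
    have hd0 : 0 < d := Nat.pos_of_mem_divisors hd
    have hdm : d ∣ m := Nat.dvd_of_mem_divisors hd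
    have hc : d.Coprime p := by
      refine ((Nat.Prime.coprime_iff_not_dvd hp).2 ?_).symm
      exact fun h => hpm (h.trans hdm)
    rw [Nat.totient_mul hc, Nat.totient_prime hp]
    have ht : 0 < Nat.totient d := Nat.totient_pos.2 hd0
    have h1 : (0 : ℝ) < d := by exact_mod_cast hd0
    have h2 : (0 : ℝ) < Nat.totient d := by exact_mod_cast ht
    have h3 : (1 : ℝ) < p := by exact_mod_cast hp.one_lt
    have h4 : ((p - 1 : ℕ) : ℝ) = (p : ℝ) - 1 := by
      rw [Nat.cast_sub hp.one_lt.le]; simp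
    have h5 : (((d * p : ℕ) : ℝ) / ((Nat.totient d * (p - 1) : ℕ) : ℝ)) =
        ((d : ℝ) / (Nat.totient d : ℝ)) * ((p : ℝ) / (p - 1)) := by
      push_cast
      rw [h4]
      have : (p : ℝ) - 1 ≠ 0 := by linarith
      field_simp
    rw [h5, Real.log_mul (by positivity)
      (div_ne_zero (by linarith) (by linarith))]
    push_cast
    ring
  rw [Finset.sum_congr rfl h1, Finset.sum_add_distrib, ← Finset.mul_sum, ← Finset.mul_sum]
  unfold F sg
  push_cast
  ring

/-- `F(∏ p) = σ(∏ p) ∑ w(p)` -/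
theorem F_prod (s : Finset ℕ) (hs : ∀ p ∈ s, p.Prime) :
    F (∏ p ∈ s, p) = sg (∏ p ∈ s, p) * ∑ p ∈ s, w p := by
  classical
  induction s using Finset.induction_on with
  | empty => simp [F]
  | insert p s hp ih =>
    have hpp : p.Prime := hs p (Finset.mem_insert_self _ _)
    have hs' : ∀ q ∈ s, q.Prime := fun q hq => hs q (Finset.mem_insert_of_mem hq)
    have hnd : ¬ p ∣ ∏ q ∈ s, q := by
      intro h
      obtain ⟨q, hq, hpq⟩ := (Prime.dvd_finsetProd_iff hpp.prime _).1 h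
      have := (Nat.prime_dvd_prime_iff_eq hpp (hs' q hq)).1 hpq
      exact hp (this ▸ hq)
    have hpos : 0 < ∏ q ∈ s, q := Finset.prod_pos fun q hq => (hs' q hq).pos
    rw [Finset.prod_insert hp, mul_comm p, F_mul_prime hpp hnd hpos, sg_mul_prime hpp hnd, ih hs',
      Finset.sum_insert hp]
    have hp0 : (0 : ℝ) < (p : ℝ) + 1 := by positivity
    unfold w
    push_cast
    field_simp
    ring

theorem KL_prod (s : Finset ℕ) (hs : ∀ p ∈ s, p.Prime) :
    KL (∏ p ∈ s, p) = sg (∏ p ∈ s, p) * (∑ p ∈ s, w p - Real.log 2) := by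
  rw [KL_eq, F_prod s hs]
  ring

theorem sg_prod (s : Finset ℕ) (hs : ∀ p ∈ s, p.Prime) :
    sg (∏ p ∈ s, p) = ∏ p ∈ s, (p + 1) := by
  classical
  induction s using Finset.induction_on with
  | empty => simp [sg]
  | insert p s hp ih =>
    have hpp : p.Prime := hs p (Finset.mem_insert_self _ _)
    have hs' : ∀ q ∈ s, q.Prime := fun q hq => hs q (Finset.mem_insert_of_mem hq)
    have hnd : ¬ p ∣ ∏ q ∈ s, q := by
      intro h
      obtain ⟨q, hq, hpq⟩ := (Prime.dvd_finsetProd_iff hpp.prime _).1 h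
      have := (Nat.prime_dvd_prime_iff_eq hpp (hs' q hq)).1 hpq
      exact hp (this ▸ hq)
    rw [Finset.prod_insert hp, mul_comm p, sg_mul_prime hpp hnd, ih hs', Finset.prod_insert hp]
    ring

theorem sg_pos {n : ℕ} (hn : 0 < n) : 0 < sg n :=
  Finset.sum_pos (fun d hd => Nat.pos_of_mem_divisors hd) ⟨1, by simp [hn.ne']⟩

/-- `log (1 + 1 / p) ≤ w(p)` -/
theorem log_le_w {p : ℕ} (hp : 2 ≤ p) : Real.log (((p : ℝ) + 1) / p) ≤ w p := by
  have h2 : (2 : ℝ) ≤ p := by exact_mod_cast hp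
  have hp1 : (0 : ℝ) < (p : ℝ) - 1 := by linarith
  unfold w
  rw [div_mul_eq_mul_div, le_div_iff₀ (by linarith)]
  -- `((p+1)/p)^(p+1) ≤ (p/(p-1))^p`
  have key : ((((p : ℝ) + 1) / p)) ^ (p + 1) ≤ ((p : ℝ) / (p - 1)) ^ p := by
    have h3 : (p : ℝ) / (p - 1) = ((p : ℝ) + 1) / p * (1 + 1 / ((p : ℝ) ^ 2 - 1)) := by
      have h4 : (p : ℝ) ^ 2 - 1 ≠ 0 := by nlinarith
      have h5 : (p : ℝ) ≠ 0 := by linarith
      have h6 : (p : ℝ) - 1 ≠ 0 := hp1.ne'
      field_simp
      ring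
    rw [h3, mul_pow, pow_succ]
    apply mul_le_mul_of_nonneg_left _ (by positivity)
    have h7 : (0 : ℝ) < (p : ℝ) ^ 2 - 1 := by nlinarith
    have hb := one_add_mul_le_pow (a := 1 / ((p : ℝ) ^ 2 - 1)) (by
      have : (0 : ℝ) < 1 / ((p : ℝ) ^ 2 - 1) := by positivity
      linarith) p
    refine le_trans ?_ hb
    rw [add_div, div_self (by linarith)]
    apply add_le_add le_rfl
    rw [mul_one_div, div_le_div_iff₀ (by linarith) h7]
    nlinarith
  have h8 := Real.log_le_log (by positivity) key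
  rw [Real.log_pow, Real.log_pow] at h8
  push_cast at h8
  linarith

theorem w_nonneg {p : ℕ} (hp : 2 ≤ p) : 0 ≤ w p := by
  refine le_trans (Real.log_nonneg ?_) (log_le_w hp)
  rw [le_div_iff₀ (by positivity)]
  linarith

/-- `w(p) ≤ 1 / (p - 1)` -/
theorem w_le {p : ℕ} (hp : 2 ≤ p) : w p ≤ 1 / ((p : ℝ) - 1) := by
  have h2 : (2 : ℝ) ≤ p := by exact_mod_cast hp
  have hp1 : (0 : ℝ) < (p : ℝ) - 1 := by linarith
  have h1 : Real.log ((p : ℝ) / (p - 1)) ≤ 1 / ((p : ℝ) - 1) := by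
    have := Real.log_le_sub_one_of_pos (show (0 : ℝ) < (p : ℝ) / (p - 1) by positivity)
    refine this.trans (le_of_eq ?_)
    field_simp
    ring
  have h0 : 0 ≤ Real.log ((p : ℝ) / (p - 1)) := Real.log_nonneg (by
    rw [le_div_iff₀ hp1]; linarith)
  unfold w
  calc (p : ℝ) / (p + 1) * Real.log ((p : ℝ) / (p - 1)) ≤ 1 * Real.log ((p : ℝ) / (p - 1)) := by
        apply mul_le_mul_of_nonneg_right _ h0
        rw [div_le_one (by linarith)]
        linarith
    _ ≤ _ := by rw [one_mul]; exact h1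

/-- `1 / (2 p) ≤ w(p)` -/
theorem le_w {p : ℕ} (hp : 2 ≤ p) : 1 / 2 * (1 / (p : ℝ)) ≤ w p := by
  have h2 : (2 : ℝ) ≤ p := by exact_mod_cast hp
  refine le_trans ?_ (log_le_w hp)
  have h1 := Real.one_sub_inv_le_log_of_pos (show (0 : ℝ) < ((p : ℝ) + 1) / p by positivity)
  refine le_trans ?_ h1
  rw [inv_div]
  have : (1 : ℝ) - p / (p + 1) = 1 / (p + 1) := by
    field_simp; ring
  rw [this, one_div_mul_one_div]
  exact one_div_le_one_div_of_le (by positivity) (by linarith)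

end Pool.Agent.R465.KL
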